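import Pool.Agent.Lib.MP_204515_an.Complete

/-! Hereditary subalgebras: completions of matrices over a hereditary C*-subalgebra `A` of `B`
have their entries in `A`. -/

set_option autoImplicit false

open scoped Matrix

namespace Pool.Agent.Lib.MP_204515_an_NU

open Pool.Agent.Lib.MP_204515_an

/-- The principal submatrix of `a ∈ M_n(A)` on the set `K` of indices, an element of the
C*-algebra of `K × K` matrices over `A`. -/
def principal {A : Type*} {n : ℕ} (a : CStarMatrix (Fin n) (Fin n) A) (K : Finset (Fin n)) :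
    CStarMatrix K K A :=
  CStarMatrix.ofMatrix fun i j => a i j

/-- `Γ ∈ G(A)`: every matrix `a` over `A` all of whose principal submatrices on cliques of `Γ` are
positive agrees on the diagonal and on the edges of `Γ` with some positive matrix `y`. -/
def InG (A : Type*) [NonUnitalCStarAlgebra A] [PartialOrder A] [StarOrderedRing A] {n : ℕ}
    (Γ : SimpleGraph (Fin n)) : Prop :=
  ∀ a : CStarMatrix (Fin n) (Fin n) A,
    (∀ K : Finset (Fin n), Γ.IsClique (K : Set (Fin n)) → 0 ≤ principal a K) →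
    ∃ y : CStarMatrix (Fin n) (Fin n) A, 0 ≤ y ∧ ∀ i j, (i = j ∨ Γ.Adj i j) → y i j = a i j

lemma gen_sqrt {C : Type*} [NonUnitalCStarAlgebra C] [PartialOrder C] [StarOrderedRing C] {y : C}
    (hy : 0 ≤ y) : ∃ P : C, star P = P ∧ P * P = y :=
  ⟨CFC.sqrt y, (IsSelfAdjoint.of_nonneg (CFC.sqrt_nonneg y)).star_eq,
    CFC.sqrt_mul_sqrt_self y hy⟩

section Approx

variable {B : Type*} [CStarAlgebra B] [PartialOrder B] [StarOrderedRing B]

lemma norm_le_one_of {x : B} (h0 : 0 ≤ x) (h1 : x ≤ 1) : ‖x‖ ≤ 1 :=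
  (CStarAlgebra.norm_le_one_iff_of_nonneg _ h0).2 h1

/-- an approximate unit for `α` of the form `X α` -/
lemma exists_approx {α : B} (hα : 0 ≤ α) {ε : ℝ} (hε : 0 < ε) :
    ∃ X : B, (∀ p : B, star p * p ≤ α → ‖p - p * (X * α)‖ ^ 2 ≤ ε) ∧ ‖X * α‖ ≤ 1 ∧
      star (X * α) = α * X := by
  obtain ⟨S, R, hS, hR, hSS, hSR, hRS⟩ := gen_sqrt_inv hα hε
  have hαs : star α = α := (IsSelfAdjoint.of_nonneg hα).star_eq
  set X := R * R with hX
  have hXs : star X = X := by rw [hX, star_mul, hR]
  set E : B := (ε : ℂ) • X with hE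
  have hα' : α = S * S - (ε : ℂ) • 1 := by rw [hSS]; abel
  have hXα : X * α = 1 - E := by
    have h1 : R * R * (S * S) = 1 := by
      rw [mul_assoc, ← mul_assoc R S S, hRS, one_mul, hRS]
    rw [hα', mul_sub, hX, h1, mul_smul_comm, mul_one, hE, hX]
  have hαX : α * X = 1 - E := by
    have h1 : S * S * (R * R) = 1 := by
      rw [mul_assoc, ← mul_assoc S R R, hSR, one_mul, hSR]
    rw [hα', sub_mul, hX, h1, smul_mul_assoc, one_mul, hE, hX]
  have hRαR : R * α * R = 1 - E := by
    have h1 : R * (S * S) * R = 1 := by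
      rw [← mul_assoc, hRS, one_mul, hSR]
    rw [hα', mul_sub, sub_mul, h1, mul_smul_comm, mul_one, smul_mul_assoc, hE, hX]
  have h0 : 0 ≤ 1 - E := by
    rw [← hRαR]
    have := star_left_conjugate_nonneg hα R
    rwa [hR] at this
  have hX0 : 0 ≤ X := by
    have := star_mul_self_nonneg R
    rwa [hR] at this
  have hE0 : 0 ≤ E := by
    have : E = ε • X := by rw [hE]; simp
    rw [this]
    exact smul_nonneg hε.le hX0
  have hE1 : E ≤ 1 := sub_nonneg.1 h0
  have hnE : ‖E‖ ≤ 1 := norm_le_one_of hE0 hE1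
  have hn1 : ‖1 - E‖ ≤ 1 := norm_le_one_of h0 (sub_le_self _ hE0)
  have hEs : star E = E := (IsSelfAdjoint.of_nonneg hE0).star_eq
  refine ⟨X, fun p hp => ?_, by rw [hXα]; exact hn1, by rw [star_mul, hXs, hαs]⟩
  have e1 : p - p * (X * α) = p * E := by rw [hXα, mul_sub, mul_one, sub_sub_cancel]
  have e2 : ‖p * E‖ ^ 2 = ‖star (p * E) * (p * E)‖ := by
    rw [CStarRing.norm_star_mul_self, sq]
  have e3 : star (p * E) * (p * E) = E * (star p * p) * E := by
    rw [star_mul, hEs]; noncomm_ring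
  have e4 : E * (star p * p) * E ≤ E * α * E := by
    have := star_left_conjugate_le_conjugate hp E
    rwa [hEs] at this
  have e5 : 0 ≤ E * (star p * p) * E := by
    have := star_left_conjugate_nonneg (star_mul_self_nonneg p) E
    rwa [hEs] at this
  have e6 : E * α * E = (ε : ℂ) • (E * (1 - E)) := by
    nth_rewrite 2 [hE]
    rw [mul_smul_comm, mul_assoc, hαX]
  rw [e1, e2, e3]
  calc ‖E * (star p * p) * E‖ ≤ ‖E * α * E‖ := CStarAlgebra.norm_le_norm_of_nonneg_of_le e5 e4
    _ = ε * ‖E * (1 - E)‖ := by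
        rw [e6, norm_smul, Complex.norm_real, Real.norm_of_nonneg hε.le]
    _ ≤ ε * 1 := by
        refine mul_le_mul_of_nonneg_left ?_ hε.le
        calc ‖E * (1 - E)‖ ≤ ‖E‖ * ‖1 - E‖ := norm_mul_le _ _
          _ ≤ 1 * 1 := mul_le_mul hnE hn1 (norm_nonneg _) zero_le_one
          _ = 1 := one_mul 1
    _ = ε := mul_one _

variable {A : Type*} [NonUnitalCStarAlgebra A] [PartialOrder A] [StarOrderedRing A]

omit [PartialOrder A] [StarOrderedRing A] in
/-- an element of `B` dominated on both sides by elements of the hereditary subalgebra -/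
lemma mem_range (φ : A →⋆ₙₐ[ℂ] B) (hφ : Function.Injective φ)
    (hher : ∀ (a a' : A) (b : B), ∃ c, φ c = φ a * b * φ a') {p : B} {a a' : A}
    (h1 : star p * p ≤ φ a) (h2 : p * star p ≤ φ a') : ∃ q, φ q = p := by
  have hα : 0 ≤ φ a := (star_mul_self_nonneg p).trans h1
  have hα' : 0 ≤ φ a' := (mul_star_self_nonneg p).trans h2
  have hcl : IsClosed (Set.range φ) :=
    (NonUnitalStarAlgHom.isometry φ hφ).isClosedEmbedding.isClosed_range
  suffices h : p ∈ closure (Set.range φ) by
    rw [hcl.closure_eq] at h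
    exact h
  rw [Metric.mem_closure_iff]
  intro δ hδ
  set η : ℝ := δ / 4 with hη
  have hη0 : 0 < η := by positivity
  have hε : 0 < η ^ 2 := by positivity
  obtain ⟨X, hX1, hX2, hX3⟩ := exists_approx hα hε
  obtain ⟨Y, hY1, hY2, hY3⟩ := exists_approx hα' hε
  have k1 : ‖p - p * (X * φ a)‖ ≤ η := by
    have := hX1 p h1
    exact abs_le_of_sq_le_sq' this hη0.le |>.2
  have k2 : ‖p - φ a' * Y * p‖ ≤ η := by
    have := hY1 (star p) (by rwa [star_star])
    have e : star p - star p * (Y * φ a') = star (p - φ a' * Y * p) := by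
      rw [star_sub, star_mul, ← hY3, star_star]
    rw [e, norm_star] at this
    exact abs_le_of_sq_le_sq' this hη0.le |>.2
  obtain ⟨c, hc⟩ := hher a' a (Y * p * X)
  refine ⟨φ c, ⟨c, rfl⟩, ?_⟩
  rw [dist_eq_norm, hc]
  have e : p - φ a' * (Y * p * X) * φ a =
      (p - p * (X * φ a)) + (p - φ a' * Y * p) * (X * φ a) := by noncomm_ring
  rw [e]
  calc ‖(p - p * (X * φ a)) + (p - φ a' * Y * p) * (X * φ a)‖
      ≤ ‖p - p * (X * φ a)‖ + ‖(p - φ a' * Y * p) * (X * φ a)‖ := norm_add_le _ _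
    _ ≤ η + η * 1 := by
        refine add_le_add k1 ((norm_mul_le _ _).trans ?_)
        exact mul_le_mul k2 hX2 (norm_nonneg _) hη0.le
    _ < δ := by rw [hη]; linarith

/-- `G(B) ⊆ G(A)` for a hereditary subalgebra `A` of `B`. -/
theorem inG_of_hereditary (φ : A →⋆ₙₐ[ℂ] B) (hφ : Function.Injective φ)
    (hher : ∀ (a a' : A) (b : B), ∃ c, φ c = φ a * b * φ a') {n : ℕ} {Γ : SimpleGraph (Fin n)}
    (h : InG B Γ) : InG A Γ := by
  intro a ha
  obtain ⟨y, hy0, hy⟩ := h (CStarMatrix.ofMatrix fun i j => φ (a i j)) (by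
    intro K hK
    obtain ⟨P, hP⟩ := (gen_nonneg_iff _).1 (ha K hK)
    rw [gen_nonneg_iff]
    refine ⟨CStarMatrix.ofMatrix fun i j => φ (P i j), ?_⟩
    refine CStarMatrix.ext fun i j => ?_
    rw [CStarMatrix.mul_apply]
    have h1 : a i j = ∑ k, star (P k i) * P k j := by
      have := congrFun (congrFun hP i) j
      rw [CStarMatrix.mul_apply] at this
      exact this
    change φ (a i j) = ∑ k, star (φ (P k i)) * φ (P k j)
    rw [h1, map_sum]
    refine Finset.sum_congr rfl fun k _ => ?_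
    rw [map_mul, map_star])
  obtain ⟨P, hPs, hPP⟩ := gen_sqrt hy0
  have hst : ∀ k i, star (P k i) = P i k := fun k i => by
    have := congrFun (congrFun hPs i) k
    exact this
  have hyP : ∀ i j, y i j = ∑ k, star (P k i) * P k j := fun i j => by
    rw [← hPP, CStarMatrix.mul_apply]
    exact Finset.sum_congr rfl fun k _ => by rw [hst]
  have hcol : ∀ i, ∑ k, star (P k i) * P k i = φ (a i i) := fun i => by
    rw [← hyP]
    exact hy i i (Or.inl rfl)
  have hle : ∀ k i, star (P k i) * P k i ≤ φ (a i i) := fun k i => by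
    rw [← hcol]
    exact Finset.single_le_sum (f := fun k => star (P k i) * P k i)
      (fun k _ => star_mul_self_nonneg _) (Finset.mem_univ k)
  have hmem : ∀ k i, ∃ q, φ q = P k i := fun k i => by
    refine mem_range φ hφ hher (hle k i) (a' := a k k) ?_
    have := hle i k
    rwa [← hst k i, star_star] at this
  choose Q hQ using hmem
  refine ⟨star (CStarMatrix.ofMatrix Q) * CStarMatrix.ofMatrix Q, star_mul_self_nonneg _,
    fun i j hij => ?_⟩
  apply hφ
  have h1 : (star (CStarMatrix.ofMatrix Q) * CStarMatrix.ofMatrix Q :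
      CStarMatrix (Fin n) (Fin n) A) i j = ∑ k, star (Q k i) * Q k j := by
    rw [CStarMatrix.mul_apply]
    rfl
  rw [h1, map_sum]
  have h2 : y i j = φ (a i j) := hy i j hij
  rw [← h2, hyP]
  refine Finset.sum_congr rfl fun k _ => ?_
  rw [map_mul, map_star, hQ, hQ]

end Approx

end Pool.Agent.Lib.MP_204515_an_NU
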