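import Pool.Agent.Lib.MP_204515_an_NU.Desc

/-! The obstruction to completions, over a nonzero C*-algebra without unit. -/

set_option autoImplicit false

namespace Pool.Agent.Lib.MP_204515_an_NU

open Pool.Agent.Lib.MP_204515_an

variable {B : Type*} [CStarAlgebra B] [PartialOrder B] [StarOrderedRing B]
variable {V : Type*} [DecidableEq V]

/-- The obstruction. -/
lemma noObs_of_data {Γ : SimpleGraph V} {Q : B} (hQ : Q ≠ 0)
    (h : ∀ m : V → V → ℂ, (∀ K : Finset V, Γ.IsClique (K : Set V) →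
        ∃ x : V → ℂ, ∀ i ∈ K, ∀ j ∈ K, m i j = star (x i) * x j) →
      ∃ (n : ℕ) (T : Fin n → V → B),
        ∀ i j, (i = j ∨ Γ.Adj i j) → ∑ k, star (T k i) * T k j = m i j • Q) : NoObs Γ := by
  classical
  intro C hconn v s t hvC hvadj hvs hvt hs ht hst
  by_contra hnst
  set X : Finset V := insert v (insert s (insert t C)) with hX
  set M : V → V → ℂ := fun i j => if i ∈ X ∧ j ∈ X then
    (if (i = v ∧ j = s) ∨ (i = s ∧ j = v) then -1 else 1) else 0 with hMdef
  have hvs' : v ≠ s := hvs.ne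
  have hvt' : v ≠ t := hvt.ne
  have hM : ∀ K : Finset V, Γ.IsClique (K : Set V) →
      ∃ x : V → ℂ, ∀ i ∈ K, ∀ j ∈ K, M i j = star (x i) * x j := by
    intro K hK
    by_cases hvK : v ∈ K ∧ s ∈ K
    · refine ⟨fun i => if i = v then (1 : ℂ) else if i = s then -1 else 0, ?_⟩
      have hKX : ∀ i ∈ K, i ∈ X → i = v ∨ i = s := by
        intro i hi hiX
        simp only [hX, Finset.mem_insert] at hiX
        rcases hiX with rfl | rfl | rfl | hiC
        · exact Or.inl rfl
        · exact Or.inr rfl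
        · exact absurd (hK hvK.2 hi hst) hnst
        · have hvi : v ≠ i := fun h' => hvC (h' ▸ hiC)
          exact absurd (hK hvK.1 hi hvi) (hvadj i hiC)
      have hvX : v ∈ X := by simp [hX]
      have hsX : s ∈ X := by simp [hX]
      intro i hi j hj
      by_cases hiX : i ∈ X
      · by_cases hjX : j ∈ X
        · rcases hKX i hi hiX with rfl | rfl <;> rcases hKX j hj hjX with rfl | rfl
          · simp [hMdef, hvX, hvs']
          · simp [hMdef, hvX, hsX, hvs'.symm]
          · simp [hMdef, hvX, hsX, hvs'.symm]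
          · simp [hMdef, hsX, hvs'.symm]
        · have h1 : j ≠ v := fun h' => hjX (h' ▸ hvX)
          have h2 : j ≠ s := fun h' => hjX (h' ▸ hsX)
          simp [hMdef, hjX, h1, h2]
      · have h1 : i ≠ v := fun h' => hiX (h' ▸ hvX)
        have h2 : i ≠ s := fun h' => hiX (h' ▸ hsX)
        simp [hMdef, hiX, h1, h2]
    · refine ⟨fun i => if i ∈ X then (1 : ℂ) else 0, ?_⟩
      intro i hi j hj
      have hne : ¬ ((i = v ∧ j = s) ∨ (i = s ∧ j = v)) := by
        rintro (⟨rfl, rfl⟩ | ⟨rfl, rfl⟩)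
        · exact hvK ⟨hi, hj⟩
        · exact hvK ⟨hj, hi⟩
      by_cases hiX : i ∈ X <;> by_cases hjX : j ∈ X <;> simp [hMdef, hiX, hjX, hne]
  obtain ⟨n, T, hT'⟩ := h M hM
  have hone : ∀ i j, i ∈ X → j ∈ X → ¬ ((i = v ∧ j = s) ∨ (i = s ∧ j = v)) →
      M i j • Q = Q := by
    intro i j hi hj hne
    have : M i j = 1 := by simp [hMdef, hi, hj, hne]
    rw [this, one_smul]
  have heq : ∀ i j, i ∈ X → j ∈ X → Γ.Adj i j → ¬ ((i = v ∧ j = s) ∨ (i = s ∧ j = v)) →
      ∀ k, T k i = T k j := by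
    intro i j hi hj hij hne k
    have hne' : ¬ ((j = v ∧ i = s) ∨ (j = s ∧ i = v)) := by tauto
    have hself : ∀ i, ¬ ((i = v ∧ i = s) ∨ (i = s ∧ i = v)) := by
      rintro i (⟨h1, h2⟩ | ⟨h1, h2⟩)
      · exact hvs' (h1 ▸ h2)
      · exact hvs' (h2 ▸ h1)
    have := eq_zero_of_sum_eq_zero (fun k => T k i - T k j) (star_sub_mul_self_sum _ _ Q
      ((hT' i i (Or.inl rfl)).trans (hone i i hi hi (hself i)))
      ((hT' j j (Or.inl rfl)).trans (hone j j hj hj (hself j)))
      ((hT' i j (Or.inr hij)).trans (hone i j hi hj hne))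
      ((hT' j i (Or.inr hij.symm)).trans (hone j i hj hi hne'))) k
    exact sub_eq_zero.1 this
  have hvX : v ∈ X := by simp [hX]
  have hsX : s ∈ X := by simp [hX]
  have htX : t ∈ X := by simp [hX]
  have hCX : C ⊆ X := fun x hx => by simp [hX, hx]
  have hCT : ∀ C' : Finset V, Conn Γ C' → C' ⊆ C → ∀ c ∈ C', ∀ c' ∈ C', ∀ k, T k c = T k c' := by
    intro C' hC'
    induction hC' with
    | single v => intro _ c hc c' hc' k; rw [Finset.mem_singleton.1 hc, Finset.mem_singleton.1 hc']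
    | @insert C' u c0 hC' hc0 hadj ih =>
      intro hsub
      have huC : u ∈ C := hsub (Finset.mem_insert_self _ _)
      have hc0C : c0 ∈ C := hsub (Finset.mem_insert_of_mem hc0)
      have ih' := ih ((Finset.subset_insert _ _).trans hsub)
      have hu : ∀ k, T k u = T k c0 := heq u c0 (hCX huC) (hCX hc0C) hadj (by
        rintro (⟨rfl, -⟩ | ⟨-, rfl⟩)
        · exact hvC huC
        · exact hvC hc0C)
      have hall : ∀ c ∈ insert u C', ∀ k, T k c = T k c0 := by
        intro c hc k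
        rcases Finset.mem_insert.1 hc with rfl | hc
        · exact hu k
        · exact ih' c hc c0 hc0 k
      intro c hc c' hc' k
      rw [hall c hc, hall c' hc']
  obtain ⟨c, hcC, hsc⟩ := hs
  obtain ⟨c', hc'C, htc⟩ := ht
  have e1 : ∀ k, T k s = T k c := heq s c hsX (hCX hcC) hsc (by
    rintro (⟨h1, -⟩ | ⟨-, h1⟩)
    · exact hvs' h1.symm
    · exact hvC (h1 ▸ hcC))
  have e2 : ∀ k, T k t = T k c' := heq t c' htX (hCX hc'C) htc (by
    rintro (⟨h1, -⟩ | ⟨-, h1⟩)
    · exact hvt' h1.symm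
    · exact hvC (h1 ▸ hc'C))
  have e3 : ∀ k, T k v = T k t := heq v t hvX htX hvt (by
    rintro (⟨-, h1⟩ | ⟨-, h1⟩)
    · exact hst h1.symm
    · exact hvt' h1.symm)
  have e4 : ∀ k, T k v = T k s := fun k => by
    rw [e3, e2, e1]
    exact hCT C hconn (Finset.Subset.refl _) c' hc'C c hcC k
  have e5 : M s s • Q = Q := hone s s hsX hsX (by
    rintro (⟨h1, -⟩ | ⟨-, h1⟩)
    · exact hvs' h1.symm
    · exact hvs' h1.symm)
  have e6 : M v s = -1 := by simp [hMdef, hvX, hsX]
  have e7 := hT' v s (Or.inr hvs)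
  have e8 := hT' s s (Or.inl rfl)
  rw [e6] at e7
  rw [e5] at e8
  simp_rw [e4] at e7
  rw [e7, neg_smul, one_smul] at e8
  have h2 : (2 : ℂ) • Q = 0 := by
    rw [two_smul]
    nth_rewrite 1 [← e8]
    exact neg_add_cancel Q
  rw [smul_eq_zero] at h2
  rcases h2 with h2 | h2
  · norm_num at h2
  · exact hQ h2

/-- `Γ ∈ G(A)` for some nonzero subalgebra `A` of `B` excludes the obstruction. -/
theorem noObs_of_inG {A : Type*} [NonUnitalCStarAlgebra A] [PartialOrder A] [StarOrderedRing A]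
    [Nontrivial A] (φ : A →⋆ₙₐ[ℂ] B) (hφ : Function.Injective φ) {n : ℕ}
    {Γ : SimpleGraph (Fin n)} (h : InG A Γ) : NoObs Γ := by
  obtain ⟨a0, ha0⟩ := exists_ne (0 : A)
  have hq : star a0 * a0 ≠ 0 := fun h' => ha0 ((CStarRing.star_mul_self_eq_zero_iff _).1 h')
  have hQ : φ (star a0 * a0) ≠ 0 := fun h' => hq (hφ (by rw [h', map_zero]))
  refine noObs_of_data hQ fun m hm => ?_
  obtain ⟨y, hy0, hy⟩ := h (CStarMatrix.ofMatrix fun i j => m i j • (star a0 * a0)) (by
    intro K hK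
    obtain ⟨x, hx⟩ := hm K hK
    rw [gen_nonneg_iff]
    rcases K.eq_empty_or_nonempty with hKe | ⟨k0, hk0⟩
    · subst hKe
      refine ⟨0, CStarMatrix.ext fun i => ?_⟩
      exact absurd i.2 (Finset.notMem_empty _)
    · refine ⟨CStarMatrix.ofMatrix fun k j => if k = ⟨k0, hk0⟩ then x j • a0 else 0, ?_⟩
      refine CStarMatrix.ext fun i j => ?_
      rw [CStarMatrix.mul_apply, Finset.sum_eq_single ⟨k0, hk0⟩]
      · change m i j • (star a0 * a0) =
          star (if (⟨k0, hk0⟩ : K) = ⟨k0, hk0⟩ then x i • a0 else 0) *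
            (if (⟨k0, hk0⟩ : K) = ⟨k0, hk0⟩ then x j • a0 else 0)
        rw [if_pos rfl, if_pos rfl, star_smul, smul_mul_smul_comm, hx i i.2 j j.2]
      · intro b _ hb
        change star (if b = ⟨k0, hk0⟩ then x i • a0 else 0) *
            (if b = ⟨k0, hk0⟩ then x j • a0 else 0) = 0
        rw [if_neg hb, if_neg hb, mul_zero]
      · simp)
  obtain ⟨P, hP⟩ := (gen_nonneg_iff _).1 hy0
  refine ⟨n, fun k i => φ (P k i), fun i j hij => ?_⟩
  have h1 : y i j = ∑ k, star (P k i) * P k j := by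
    have := congrFun (congrFun hP i) j
    rw [CStarMatrix.mul_apply] at this
    exact this
  have h2 : y i j = m i j • (star a0 * a0) := hy i j hij
  calc ∑ k, star (φ (P k i)) * φ (P k j) = φ (∑ k, star (P k i) * P k j) := by
        rw [map_sum]
        exact Finset.sum_congr rfl fun k _ => by rw [map_mul, map_star]
    _ = m i j • φ (star a0 * a0) := by rw [← h1, h2, map_smul]

end Pool.Agent.Lib.MP_204515_an_NU
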